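import Pool.Agent.Y58.HT.Stm

/-!
# Subgroups of `PGL(2,F)` that contain `PSL(2,F)`

Owner helper569.
-/

universe u

namespace Pool.Agent.Y569.HT

open Matrix H361P Pool.Agent.Y58.HT
open scoped MatrixGroups LinearAlgebra.Projectivization

variable {F : Type u} [Field F]

theorem wd_rep_ne {p q : ℙ F (Fin 2 → F)} (h : p ≠ q) : wd p.rep q.rep ≠ 0 := by
  intro h0
  apply h
  rw [← p.mk_rep, ← q.mk_rep]
  exact mk_eq_of_wd p.rep_nonzero q.rep_nonzero h0

/-- the matrix with columns `x` and `y`, rescaled to determinant `1` -/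
noncomputable def sm (x y : Fin 2 → F) (h : wd x y ≠ 0) : SL(2, F) :=
  ⟨!![x 0, (wd x y)⁻¹ * y 0; x 1, (wd x y)⁻¹ * y 1], by
    rw [Matrix.det_fin_two]
    simp only [Matrix.of_apply, Matrix.cons_val', Matrix.cons_val_zero, Matrix.cons_val_one,
      Matrix.cons_val_fin_one]
    have h1 : x 0 * ((wd x y)⁻¹ * y 1) - (wd x y)⁻¹ * y 0 * x 1 = (wd x y)⁻¹ * wd x y := by
      simp only [wd]
      ring
    rw [h1, inv_mul_cancel₀ h]⟩

theorem sm_fst (x y : Fin 2 → F) (h : wd x y ≠ 0) :
    ((sm x y h : SL(2, F)) : GL (Fin 2) F) • (![1, 0] : Fin 2 → F) = x := by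
  funext i
  fin_cases i <;> simp [sm]

theorem sm_snd (x y : Fin 2 → F) (h : wd x y ≠ 0) :
    ((sm x y h : SL(2, F)) : GL (Fin 2) F) • (![0, 1] : Fin 2 → F) = (wd x y)⁻¹ • y := by
  funext i
  fin_cases i <;> simp [sm]

theorem exists_std {p q : ℙ F (Fin 2 → F)} (h : p ≠ q) :
    ∃ s : SL(2, F), (s : GL (Fin 2) F) • pb true = p ∧ (s : GL (Fin 2) F) • pb false = q := by
  have hw := wd_rep_ne h
  refine ⟨sm p.rep q.rep hw, ?_, ?_⟩
  · conv_rhs => rw [← p.mk_rep]
    rw [pb, Projectivization.smul_mk, Projectivization.mk_eq_mk_iff']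
    exact ⟨1, by
      rw [one_smul]
      exact (sm_fst p.rep q.rep hw).symm⟩
  · conv_rhs => rw [← q.mk_rep]
    rw [pb, Projectivization.smul_mk, Projectivization.mk_eq_mk_iff']
    exact ⟨(wd p.rep q.rep)⁻¹, (sm_snd p.rep q.rep hw).symm⟩

/-- `SL(2,F)` is transitive on pairs of different points -/
theorem two {p q p' q' : ℙ F (Fin 2 → F)} (h : p ≠ q) (h' : p' ≠ q') :
    ∃ m : SL(2, F), (m : GL (Fin 2) F) • p = p' ∧ (m : GL (Fin 2) F) • q = q' := by
  obtain ⟨s, h1, h2⟩ := exists_std h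
  obtain ⟨s', h3, h4⟩ := exists_std h'
  refine ⟨s' * s⁻¹, ?_, ?_⟩
  · rw [map_mul, map_inv, ← h1, mul_smul, inv_smul_smul, h3]
  · rw [map_mul, map_inv, ← h2, mul_smul, inv_smul_smul, h4]

/-- there is a point different from two given points -/
theorem third (p q : ℙ F (Fin 2 → F)) : ∃ o, o ≠ p ∧ o ≠ q := by
  by_contra hc
  push Not at hc
  have h01 : (std3 0 : ℙ F (Fin 2 → F)) ≠ std3 1 := fun h => by
    have := std3_injective h
    exact absurd this (by decide)
  have h02 : (std3 0 : ℙ F (Fin 2 → F)) ≠ std3 2 := fun h => by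
    have := std3_injective h
    exact absurd this (by decide)
  have h12 : (std3 1 : ℙ F (Fin 2 → F)) ≠ std3 2 := fun h => by
    have := std3_injective h
    exact absurd this (by decide)
  have a0 := hc (std3 0)
  have a1 := hc (std3 1)
  have a2 := hc (std3 2)
  by_cases e0 : std3 0 = p
  · have b1 := a1 (fun h => h01 (e0.trans h.symm))
    have b2 := a2 (fun h => h02 (e0.trans h.symm))
    exact h12 (b1.trans b2.symm)
  · have b0 := a0 e0
    by_cases e1 : std3 1 = p
    · have b2 := a2 (fun h => h12 (e1.trans h.symm))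
      exact h02 (b0.trans b2.symm)
    · exact h01 (b0.trans (a1 e1).symm)

theorem faithful_aux (g : PGL(2, F))
    (hg : ∀ p : ℙ F (Fin 2 → F), actPGL.toSMul.smul g p = p) : g = 1 := by
  induction g using ProjGenLinGroup.induction_on with
  | mk m =>
    have e1 : m • (pb true : ℙ F (Fin 2 → F)) = pb true := hg (pb true)
    have e2 : m • (pb false : ℙ F (Fin 2 → F)) = pb false := hg (pb false)
    have e3 : m • (pt 1 : ℙ F (Fin 2 → F)) = pt 1 := hg (pt 1)
    simp only [pb, pt, Projectivization.smul_mk] at e1 e2 e3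
    have f1 := wd_of_mk_eq _ _ e1
    have f2 := wd_of_mk_eq _ _ e2
    have f3 := wd_of_mk_eq _ _ e3
    simp [wd, eb] at f1 f2 f3
    apply mk_eq_one_of_entries
    · exact f2
    · exact f1
    · rw [f1, f2] at f3; linear_combination f3

/-- subgroups of `PGL(2,F)` that contain `PSL(2,F)` -/
theorem t_psl : S_PSL.{u} := by
  intro F _ _ G hG
  refine ⟨?_, ?_, ?_, ?_⟩
  · intro p
    obtain ⟨o, ho, _⟩ := third p p
    obtain ⟨m, h1, _⟩ := two (Ne.symm ho) ho
    exact ⟨m, hG m, by rw [h1]; exact ho⟩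
  · intro p q hpq
    obtain ⟨o, hop, hoq⟩ := third p q
    obtain ⟨m, _, h2⟩ := two hpq (Ne.symm hop)
    refine ⟨m, hG m, ?_⟩
    rw [h2]
    rintro ⟨_, h3 | h3⟩
    · exact hop h3
    · exact hoq h3
  · letI : MulAction (PGL(2, F)) (ℙ F (Fin 2 → F)) := actPGL
    refine ⟨ℙ F (Fin 2 → F), inferInstance, ?_, ?_⟩
    · refine ⟨?_⟩
      intro g1 g2 h
      have h1 : ((g2 : PGL(2, F))⁻¹ * g1) = 1 := by
        apply faithful_aux
        intro p
        show ((g2 : PGL(2, F))⁻¹ * g1) • p = p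
        have h2 : (g1 : PGL(2, F)) • p = (g2 : PGL(2, F)) • p := h p
        rw [mul_smul, h2, inv_smul_smul]
      rw [inv_mul_eq_one] at h1
      exact Subtype.ext h1.symm
    · refine ⟨⟨![pb true, pb false], ?_⟩, ?_⟩
      · have h01 : (pb true : ℙ F (Fin 2 → F)) ≠ pb false := by
          intro h; have := wd_of_mk_eq _ _ h; simp [wd, eb] at this
        intro i j hij
        fin_cases i <;> fin_cases j <;> simp at hij ⊢
        · exact h01 hij
        · exact h01 hij.symm
      · intro a b ha hb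
        obtain ⟨m, h1, h2⟩ := two (p := a 0) (q := a 1) (p' := b 0) (q' := b 1)
          (fun h => absurd (ha h) (by decide)) (fun h => absurd (hb h) (by decide))
        refine ⟨⟨ProjGenLinGroup.mk (m : GL (Fin 2) F), hG m⟩, fun i => ?_⟩
        show (m : GL (Fin 2) F) • a i = b i
        fin_cases i
        · exact h1
        · exact h2
  · intro x
    let s : SL(2, F) := ⟨!![(x : F)⁻¹, 0; 0, (x : F)], by
      rw [Matrix.det_fin_two]
      simp⟩
    have h1 : ProjGenLinGroup.mk (dm (x ^ 2) true) = ProjGenLinGroup.mk (s : GL (Fin 2) F) := by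
      apply mk_eq_of_smul _ _ (x : F)
      ext i j
      fin_cases i <;> fin_cases j <;> simp [dm, s, GeneralLinearGroup.mkOfDetNeZero, sq]
    rw [h1]
    exact hG s

end Pool.Agent.Y569.HT
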